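import Pool.Agent.Helper30.LK.St

/-! # Project LK, module EXA: `q` divides `σ(m ^ 2)` and `σ(2 m ^ 2)` for almost all `m` -/

set_option autoImplicit false

noncomputable section

namespace Pool.Agent.Helper61.LK

open Finset ArithmeticFunction Filter
open Pool.Agent.Helper18.TR (StFL)
open Pool.Agent.Helper15.AB (StMT)
open Pool.Agent.Helper48.BK (StSW th)
open Pool.Agent.Helper30.PB (StPRP StPIP)
open Pool.Agent.Helper30.LK

private theorem exists_root (q : ℕ) (hq : q.Prime) (h3 : q % 3 = 1) :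
    ∃ r : ℕ, Nat.Coprime r q ∧ q ∣ r ^ 2 + r + 1 := by
  haveI : Fact q.Prime := ⟨hq⟩
  haveI : Fact (Nat.Prime 3) := ⟨Nat.prime_three⟩
  have hcard : 3 ∣ Nat.card (ZMod q)ˣ := by
    rw [Nat.card_eq_fintype_card, ZMod.card_units_eq_totient, Nat.totient_prime hq]
    omega
  obtain ⟨x, hx⟩ := exists_prime_orderOf_dvd_card' 3 hcard
  have hx3 : x ^ 3 = 1 := by rw [← hx]; exact pow_orderOf_eq_one x
  have hx1 : x ≠ 1 := by
    intro h
    rw [h, orderOf_one] at hx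
    norm_num at hx
  have hy3 : (x : ZMod q) ^ 3 = 1 := by
    have := congrArg Units.val hx3
    simpa using this
  have hy1 : (x : ZMod q) - 1 ≠ 0 := by
    intro h
    apply hx1
    ext
    simpa [sub_eq_zero] using h
  have hroot : (x : ZMod q) ^ 2 + (x : ZMod q) + 1 = 0 := by
    have h : ((x : ZMod q) - 1) * ((x : ZMod q) ^ 2 + (x : ZMod q) + 1) = 0 := by
      have : ((x : ZMod q) - 1) * ((x : ZMod q) ^ 2 + (x : ZMod q) + 1) = (x : ZMod q) ^ 3 - 1 := by ring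
      rw [this, hy3, sub_self]
    exact (mul_eq_zero.1 h).resolve_left hy1
  refine ⟨(x : ZMod q).val, ZMod.val_coe_unit_coprime x, ?_⟩
  rw [← ZMod.natCast_eq_zero_iff]
  push_cast
  rw [ZMod.natCast_val, ZMod.cast_id]
  exact hroot

theorem hEXA (hV : StDVQ) (hD : StDIV) : StEXA := by
  intro q hq h3 ε hε
  obtain ⟨r, hrq, hr⟩ := exists_root q hq h3
  set p₀ : ℕ := ⌈8 / ε⌉₊ + 3 with hp₀
  obtain ⟨P, hP, N₀, hN₀⟩ := hD q r p₀ hq.one_le hrq (ε / 2) (half_pos hε)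
  refine ⟨N₀, fun M hM => ?_⟩
  have hN := hN₀ M hM
  have hsub : (Icc 1 M).filter (fun m => ¬ (q ∣ sigma 1 (m ^ 2) ∧ q ∣ sigma 1 (2 * m ^ 2))) ⊆
      (Icc 1 M).filter (fun n => ∀ p ∈ P, ¬ p ∣ n) ∪ P.biUnion (fun p => (Icc 1 M).filter (fun m => p ^ 2 ∣ m)) := by
    intro m hm
    obtain ⟨hm1, hm2⟩ := mem_filter.1 hm
    by_contra hcon
    rw [mem_union, not_or] at hcon
    obtain ⟨c1, c2⟩ := hcon
    have c1' : ∃ p ∈ P, p ∣ m := by
      by_contra h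
      push Not at h
      exact c1 (mem_filter.2 ⟨hm1, h⟩)
    obtain ⟨p, hpP, hpm⟩ := c1'
    have c2' : ¬ p ^ 2 ∣ m := by
      intro h
      exact c2 (mem_biUnion.2 ⟨p, hpP, mem_filter.2 ⟨hm1, h⟩⟩)
    obtain ⟨hp1, hp2, hp3⟩ := hP p hpP
    apply hm2
    refine hV.1 q p m hp1 (by omega) ?_ hpm c2'
    have hmod : p ≡ r [MOD q] := hp2
    have h2 : p ^ 2 + p + 1 ≡ r ^ 2 + r + 1 [MOD q] := ((hmod.pow 2).add hmod).add_right 1
    exact (Nat.modEq_zero_iff_dvd).1 (h2.trans ((Nat.modEq_zero_iff_dvd).2 hr))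
  have hM0 : (0 : ℝ) ≤ M := Nat.cast_nonneg M
  have hone : ∀ p ∈ P, (((Icc 1 M).filter (fun m => p ^ 2 ∣ m)).card : ℝ) ≤ M * ((p : ℝ) ^ 2)⁻¹ := by
    intro p _
    have e : (Icc 1 M).filter (fun m => p ^ 2 ∣ m) = (Ioc 0 M).filter (fun m => p ^ 2 ∣ m) := rfl
    rw [e, Nat.Ioc_filter_dvd_card_eq_div]
    have h := @Nat.cast_div_le ℝ _ _ _ M (p ^ 2)
    rw [Nat.cast_pow, div_eq_mul_inv] at h
    exact h
  have hp₀0 : (0 : ℝ) < p₀ := by
    have : 0 < p₀ := by omega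
    exact_mod_cast this
  have hsum : ∑ p ∈ P, ((p : ℝ) ^ 2)⁻¹ ≤ ε / 2 := by
    have hsub2 : P ⊆ Ioo (p₀ - 1) (P.sup id + 1) := by
      intro p hp
      obtain ⟨_, _, h3⟩ := hP p hp
      have h4 : p ≤ P.sup id := le_sup (f := id) hp
      rw [mem_Ioo]
      constructor <;> omega
    calc ∑ p ∈ P, ((p : ℝ) ^ 2)⁻¹ ≤ ∑ p ∈ Ioo (p₀ - 1) (P.sup id + 1), ((p : ℝ) ^ 2)⁻¹ :=
          sum_le_sum_of_subset_of_nonneg hsub2 fun _ _ _ => by positivity
      _ ≤ 2 / (((p₀ - 1 : ℕ) : ℝ) + 1) := sum_Ioo_inv_sq_le _ _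
      _ = 2 / (p₀ : ℝ) := by
          congr 1
          have : ((p₀ - 1 : ℕ) : ℝ) + 1 = ((p₀ - 1 + 1 : ℕ) : ℝ) := by push_cast; ring
          rw [this]
          congr 1
      _ ≤ ε / 2 := by
          rw [div_le_div_iff₀ hp₀0 (by norm_num)]
          have h8 : 8 / ε ≤ (p₀ : ℝ) := by
            have h1 := Nat.le_ceil (8 / ε)
            have h2 : ((⌈8 / ε⌉₊ : ℕ) : ℝ) ≤ (p₀ : ℝ) := by
              have : ⌈8 / ε⌉₊ ≤ p₀ := by omega
              exact_mod_cast this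
            linarith
          rw [div_le_iff₀ hε] at h8
          linarith
  calc (((Icc 1 M).filter (fun m => ¬ (q ∣ sigma 1 (m ^ 2) ∧ q ∣ sigma 1 (2 * m ^ 2)))).card : ℝ)
      ≤ (((Icc 1 M).filter (fun n => ∀ p ∈ P, ¬ p ∣ n) ∪
          P.biUnion (fun p => (Icc 1 M).filter (fun m => p ^ 2 ∣ m))).card : ℝ) := by
        exact_mod_cast card_le_card hsub
    _ ≤ (((Icc 1 M).filter (fun n => ∀ p ∈ P, ¬ p ∣ n)).card : ℝ) +
        ((P.biUnion (fun p => (Icc 1 M).filter (fun m => p ^ 2 ∣ m))).card : ℝ) := by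
        exact_mod_cast card_union_le _ _
    _ ≤ ε / 2 * M + ∑ p ∈ P, (((Icc 1 M).filter (fun m => p ^ 2 ∣ m)).card : ℝ) := by
        refine add_le_add hN ?_
        exact_mod_cast card_biUnion_le
    _ ≤ ε / 2 * M + ∑ p ∈ P, (M * ((p : ℝ) ^ 2)⁻¹) := by
        have := sum_le_sum hone
        linarith
    _ = ε / 2 * M + M * ∑ p ∈ P, ((p : ℝ) ^ 2)⁻¹ := by rw [mul_sum]
    _ ≤ ε / 2 * M + M * (ε / 2) := by
        have := mul_le_mul_of_nonneg_left hsum hM0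
        linarith
    _ = ε * M := by ring

end Pool.Agent.Helper61.LK
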